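import Pool.Agent.Lib_helper45.HS.Defs

/-!
# Hilbert-Selberg: the prime system of a number field
-/

namespace Pool.Agent.HS

open NumberField IsDedekindDomain
open scoped nonZeroDivisors Classical

variable {K : Type} [Field K] [NumberField K]

theorem pk_ne_bot (p : HeightOneSpectrum (𝓞 K)) : Ideal.absNorm p.asIdeal ≠ 0 := by
  rw [Ne, Ideal.absNorm_eq_zero_iff]; exact p.ne_bot

theorem pk_ne_one (p : HeightOneSpectrum (𝓞 K)) : Ideal.absNorm p.asIdeal ≠ 1 := by
  rw [Ne, Ideal.absNorm_eq_one_iff]; exact p.isPrime.ne_top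

theorem pk_pp (p : HeightOneSpectrum (𝓞 K)) : IsPrimePow (Ideal.absNorm p.asIdeal) := by
  have h1 : Finite (𝓞 K ⧸ p.asIdeal) := (Ideal.absNorm_ne_zero_iff _).1 (pk_ne_bot p)
  have hm : p.asIdeal.IsMaximal := p.isMaximal
  let _ := Ideal.Quotient.field p.asIdeal
  rw [Ideal.absNorm_apply, Submodule.cardQuot_apply]
  have := Fintype.ofFinite (𝓞 K ⧸ p.asIdeal)
  rw [Nat.card_eq_fintype_card]
  exact FiniteField.isPrimePow_card _

theorem pk_eq (p : HeightOneSpectrum (𝓞 K)) : Ideal.absNorm p.asIdeal =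
    (Ideal.absNorm p.asIdeal).minFac ^
      (Ideal.absNorm p.asIdeal).factorization (Ideal.absNorm p.asIdeal).minFac :=
  ((pk_pp p).minFac_pow_factorization_eq).symm

theorem pk_pos (p : HeightOneSpectrum (𝓞 K)) :
    0 < (Ideal.absNorm p.asIdeal).factorization (Ideal.absNorm p.asIdeal).minFac :=
  (Nat.minFac_prime (pk_ne_one p)).factorization_pos_of_dvd (pk_ne_bot p) (Nat.minFac_dvd _)

variable (K) in
/-- at most `[K : ℚ]` primes over each rational prime -/
theorem pk_fib (l : ℕ) :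
    {p : HeightOneSpectrum (𝓞 K) | (Ideal.absNorm p.asIdeal).minFac = l}.encard ≤
      (Module.finrank ℚ K : ℕ) := by
  have key : ∀ F : Finset (HeightOneSpectrum (𝓞 K)),
      (∀ p ∈ F, (Ideal.absNorm p.asIdeal).minFac = l) → F.card ≤ Module.finrank ℚ K := by
    intro F hF
    rcases F.eq_empty_or_nonempty with rfl | ⟨p0, hp0⟩
    · simp
    have hl : l.Prime := by rw [← hF p0 hp0]; exact Nat.minFac_prime (pk_ne_one p0)
    have hmem : ∀ p ∈ F, ((l : ℕ) : 𝓞 K) ∈ p.asIdeal := by
      intro p hp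
      have h1 := Ideal.absNorm_mem p.asIdeal
      rw [pk_eq p, hF p hp, Nat.cast_pow] at h1
      exact p.isPrime.mem_of_pow_mem _ h1
    have hdvd : (∏ I ∈ F.image (fun p => p.asIdeal), I) ∣ Ideal.span {((l : ℕ) : 𝓞 K)} := by
      apply Finset.prod_primes_dvd
      · intro I hI
        obtain ⟨p, hp, rfl⟩ := Finset.mem_image.1 hI
        exact p.prime
      · intro I hI
        obtain ⟨p, hp, rfl⟩ := Finset.mem_image.1 hI
        rw [Ideal.dvd_span_singleton]
        exact hmem p hp
    have hinj : Set.InjOn (fun p : HeightOneSpectrum (𝓞 K) => p.asIdeal) (F : Set _) :=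
      fun a _ b _ h => HeightOneSpectrum.ext h
    rw [Finset.prod_image hinj] at hdvd
    have h2 := map_dvd (Ideal.absNorm : Ideal (𝓞 K) →*₀ ℕ) hdvd
    rw [map_prod, Ideal.absNorm_span_singleton] at h2
    have h3 : (Algebra.norm ℤ ((l : ℕ) : 𝓞 K)).natAbs = l ^ Module.finrank ℚ K := by
      have := Algebra.norm_algebraMap (S := 𝓞 K) (l : ℤ)
      rw [← RingOfIntegers.rank K]
      simpa [Int.natAbs_pow] using congrArg Int.natAbs this
    rw [h3] at h2
    have h4 : l ^ F.card ≤ l ^ Module.finrank ℚ K := by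
      calc l ^ F.card = ∏ p ∈ F, l := by rw [Finset.prod_const]
        _ ≤ ∏ p ∈ F, Ideal.absNorm p.asIdeal := by
          refine Finset.prod_le_prod' fun p hp => ?_
          rw [← hF p hp]
          exact Nat.minFac_le (Nat.pos_of_ne_zero (pk_ne_bot p))
        _ ≤ _ := Nat.le_of_dvd (pow_pos hl.pos _) h2
    exact (Nat.pow_le_pow_iff_right hl.one_lt).1 h4
  by_contra hcon
  push Not at hcon
  have h5 : ((Module.finrank ℚ K + 1 : ℕ) : ℕ∞) ≤
      {p : HeightOneSpectrum (𝓞 K) | (Ideal.absNorm p.asIdeal).minFac = l}.encard := by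
    have := Order.add_one_le_of_lt hcon
    exact_mod_cast this
  obtain ⟨t, ht, htc⟩ := Set.exists_subset_encard_eq h5
  have hfin : t.Finite := Set.finite_of_encard_eq_coe htc
  have h6 := key hfin.toFinset (fun p hp => ht (by simpa using hp))
  have h7 : hfin.toFinset.card = Module.finrank ℚ K + 1 := by
    rw [hfin.encard_eq_coe_toFinset_card] at htc
    exact_mod_cast htc
  omega

variable (K) in
/-- the prime ideals of the ring of integers -/
noncomputable def PK : PSys (HeightOneSpectrum (𝓞 K)) where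
  q p := Ideal.absNorm p.asIdeal
  und p := (Ideal.absNorm p.asIdeal).minFac
  f p := (Ideal.absNorm p.asIdeal).factorization (Ideal.absNorm p.asIdeal).minFac
  prime p := Nat.minFac_prime (pk_ne_one p)
  f_pos p := pk_pos p
  q_eq p := pk_eq p
  d := Module.finrank ℚ K
  d_pos := Module.finrank_pos
  fib l := pk_fib K l

/-- a prime ideal as a fractional ideal -/
noncomputable def frP (p : HeightOneSpectrum (𝓞 K)) : (FractionalIdeal (𝓞 K)⁰ K)ˣ :=
  Units.mk0 (p.asIdeal : FractionalIdeal (𝓞 K)⁰ K)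
    (FractionalIdeal.coeIdeal_ne_zero.mpr p.ne_bot)

/-- the integral ideal `∏ p^{m_p}` as a fractional ideal -/
noncomputable def idl (m : HeightOneSpectrum (𝓞 K) →₀ ℕ) : (FractionalIdeal (𝓞 K)⁰ K)ˣ :=
  m.prod fun p i => frP p ^ i

end Pool.Agent.HS
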